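import Pool.Agent.K3h63.IQ.Main2
import Pool.Agent.K3h51.IQ.MAS
import Pool.Agent.K3h96.IQ.ONE
import Pool.Agent.K3h37.IQ.NILN
import Pool.Agent.K3h68.IQ.GRP
import Pool.Agent.K3h14.IQ.SPLIT
import Pool.Agent.K3h40.IQ.RETR
import Pool.Agent.K3h99.IQ.EIG
import Pool.Agent.K3h62.IQ.SGN
import Pool.Agent.K3h33.IQ.DUALX
import Pool.Agent.K3h20.IQ.CPL2
import Pool.Agent.K3h51.IQ.PHAN
import Pool.Agent.K3h86.IQ.UNIT2
import Pool.Agent.K3h58.IQ.NIL1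

/-!
# Kimura finiteness of `M` from Kimura finiteness of `(M ⊗ M^∨)^G`
-/

set_option autoImplicit false

open CategoryTheory Limits MonoidalCategory
open Pool.Agent.Y112.SR Pool.Agent.Y112.KD Pool.Agent.Y112.SC Pool.Agent.R905

namespace Pool.Agent.K3h63.IQ

universe v u w

variable {C : Type u} [Category.{v} C] [Preadditive C] [Linear ℚ C] [MonoidalCategory C]
  [MonoidalPreadditive C] [MonoidalLinear ℚ C] [SymmetricCategory C]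
  [RightRigidCategory C] {K : Type w} [Field K] (R : SuperRealisation C K)
  {G : Type} [Group G] [Fintype G]

include R in
theorem final2 [IsIdempotentComplete C] (hU : UnitQ C)
    {M P T : C} {ρ : G →* End M} {j : P ⟶ M ⊗ Mᘁ} {q : M ⊗ Mᘁ ⟶ P}
    (hI : IsInv ρ (dualAct ρ) j q) (a : P ⟶ T) (b : T ⟶ P) (hab : a ≫ b = 𝟙 P)
    (hT : IsKimuraFinite T) : IsKimuraFinite M :=
  main2 R (Pool.Agent.K3h86.IQ.t_UNIT2 Pool.Agent.K3h99.IQ.t_EIG) Pool.Agent.K3h51.IQ.t_PHAN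
    Pool.Agent.K3h33.IQ.t_DUALX
    (Pool.Agent.K3h20.IQ.t_CPL2 Pool.Agent.K3h99.IQ.t_EIG Pool.Agent.K3h62.IQ.t_SGN
      Pool.Agent.K3h33.IQ.t_DUALX)
    Pool.Agent.K3h58.IQ.t_NIL1 Pool.Agent.K3h68.IQ.t_GRP Pool.Agent.K3h51.IQ.t_MAS
    (Pool.Agent.K3h37.IQ.t_NILN Pool.Agent.K3h96.IQ.t_ONE) Pool.Agent.K3h40.IQ.t_RETR
    Pool.Agent.K3h14.IQ.t_SPLIT hU hI a b hab hT

end Pool.Agent.K3h63.IQ
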