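import Pool.Agent.K3h63.IQ.Main
import Pool.Agent.K3h52.IQ.REG
import Pool.Agent.K3h51.IQ.MAS
import Pool.Agent.K3h96.IQ.ONE
import Pool.Agent.K3h37.IQ.NILN
import Pool.Agent.K3h11.IQ.CPL
import Pool.Agent.K3h68.IQ.GRP
import Pool.Agent.K3h14.IQ.SPLIT
import Pool.Agent.K3h40.IQ.RETR

/-!
# Kimura finiteness of `M` from Kimura finiteness of `(M ⊗ N)^G`
-/

set_option autoImplicit false

open CategoryTheory Limits MonoidalCategory
open Pool.Agent.Y112.SR Pool.Agent.Y112.KD Pool.Agent.Y112.SC Pool.Agent.R905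

namespace Pool.Agent.K3h63.IQ

universe v u w

variable {C : Type u} [Category.{v} C] [Preadditive C] [Linear ℚ C] [MonoidalCategory C]
  [MonoidalPreadditive C] [MonoidalLinear ℚ C] [SymmetricCategory C]
  [RightRigidCategory C] {K : Type w} [Field K] (R : SuperRealisation C K)
  {G : Type} [Group G] [Fintype G]

include R in
theorem final [IsIdempotentComplete C] (hU : UnitQ C)
    {M N P T F : C} {ρ : G →* End M} {τ : G →* End N} {j : P ⟶ M ⊗ N} {q : M ⊗ N ⟶ P}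
    (hI : IsInv ρ τ j q) (a : P ⟶ T) (b : T ⟶ P) (hab : a ≫ b = 𝟙 P) (hT : IsKimuraFinite T)
    (τF : G →* End F) (i : F ⟶ N) (r : N ⟶ F) (hir : i ≫ r = 𝟙 F)
    (hEq : ∀ g, i ≫ ((τ g : End N) : N ⟶ N) = ((τF g : End F) : F ⟶ F) ≫ i ∧
      ((τ g : End N) : N ⟶ N) ≫ r = r ≫ ((τF g : End F) : F ⟶ F))
    (hF : R.par F = 𝟙 _ ∨ R.par F = -𝟙 _) (x : R.H.obj F)
    (hx : LinearIndependent K fun g : G => (R.H.map ((τF g : End F) : F ⟶ F)).hom x) :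
    IsKimuraFinite M := by
  have h : ∃ d : ℚ, (d = 1 ∨ d = -1) ∧ R.par F = (d : K) • 𝟙 _ := by
    rcases hF with h | h
    · exact ⟨1, Or.inl rfl, by rw [h, Rat.cast_one, one_smul]⟩
    · exact ⟨-1, Or.inr rfl, by rw [h, Rat.cast_neg, Rat.cast_one, neg_one_smul]⟩
  obtain ⟨d, hd, hF'⟩ := h
  exact main R Pool.Agent.K3h52.IQ.t_REG Pool.Agent.K3h68.IQ.t_GRP Pool.Agent.K3h51.IQ.t_MAS
    (Pool.Agent.K3h37.IQ.t_NILN Pool.Agent.K3h96.IQ.t_ONE) Pool.Agent.K3h40.IQ.t_RETR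
    Pool.Agent.K3h11.IQ.t_CPL Pool.Agent.K3h14.IQ.t_SPLIT hU hI a b hab hT τF i r hir hEq hd hF'
    x hx

end Pool.Agent.K3h63.IQ
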