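import Pool.Agent.K3h63.IQ.Stm
import Pool.Agent.K3h90.SF.Noph
import Pool.Agent.K3h8.SF.Pure

/-!
# Kimura finiteness of `M` from Kimura finiteness of `(M ⊗ N)^G`: the proof from the parts
-/

set_option autoImplicit false

open CategoryTheory Limits MonoidalCategory
open Pool.Agent.Y112.SR Pool.Agent.Y112.KD Pool.Agent.Y112.SC Pool.Agent.R905 Pool.Agent.K3h8.KS

namespace Pool.Agent.K3h63.IQ

universe v u w

variable {C : Type u} [Category.{v} C] [Preadditive C] [Linear ℚ C] [MonoidalCategory C]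
  [MonoidalPreadditive C] [MonoidalLinear ℚ C] [SymmetricCategory C]
  [RightRigidCategory C] {K : Type w} [Field K] (R : SuperRealisation C K)
  {G : Type} [Group G] [Fintype G]

include R in
/-- The unit in the group algebra. -/
lemma isUnit_kap (hREG : S_REG.{v, w}) (hU : UnitQ C) {M F : C} (ρ : G →* End M)
    (τ : G →* End F) {d : ℚ} (hd : d = 1 ∨ d = -1) (hF : R.par F = (d : K) • 𝟙 _)
    (x : R.H.obj F)
    (hx : LinearIndependent K fun g : G => (R.H.map ((τ g : End F) : F ⟶ F)).hom x) :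
    IsUnit (∑ g, trq hU F (τ g) • ρ g : End M) := by
  have hc := R_charZero R
  have hfin := R.finite F
  have hdd : d * d = 1 := by rcases hd with rfl | rfl <;> norm_num
  let π : G →* Module.End K (R.H.obj F) :=
    { toFun := fun g => (R.H.map ((τ g : End F) : F ⟶ F)).hom
      map_one' := by
        rw [map_one]
        change (R.H.map (𝟙 F)).hom = 1
        rw [CategoryTheory.Functor.map_id]
        rfl
      map_mul' := fun g h => by
        rw [map_mul, End.mul_def, Functor.map_comp]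
        rfl }
  have h1 := hREG K (R.H.obj F) G π x hx (fun g => d * trq hU F (τ g)) (fun g => by
    have h2 := real_tr R hU ((τ g : End F) : F ⟶ F)
    rw [hF, Linear.comp_smul, Category.comp_id, ModuleCat.hom_smul, map_smul] at h2
    rw [Rat.cast_mul, h2, smul_eq_mul, ← mul_assoc, ← Rat.cast_mul, hdd, Rat.cast_one, one_mul]
    rfl) (End M) ρ
  have h3 : (∑ g, trq hU F (τ g) • ρ g : End M) =
      algebraMap ℚ (End M) d * ∑ g, (d * trq hU F (τ g)) • ρ g := by
    rw [Finset.mul_sum]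
    refine Finset.sum_congr rfl fun g _ => ?_
    rw [← Algebra.smul_def, smul_smul, ← mul_assoc, hdd, one_mul]
  rw [h3]
  refine IsUnit.mul ?_ h1
  exact (isUnit_iff_ne_zero.2 (by rintro rfl; norm_num at hdd)).map (algebraMap ℚ (End M))

include R in
/-- The vanishing of a power of a pure object from nilpotence. -/
lemma power_zero (hGRP : S_GRP.{v, u}) (hMAS : S_MAS.{v}) [IsIdempotentComplete C] (hU : UnitQ C)
    {E : C} (ρ : G →* End E) {d : ℚ} (hd : d = 1 ∨ d = -1) (hE : R.par E = (d : K) • 𝟙 _)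
    (hnil : ∀ (n : ℕ) (f : End (tp E n)), R.H.map (f : tp E n ⟶ tp E n) = 0 →
      (∀ a : tp E n ⟶ tp E n, IsAct ρ n a → (f : tp E n ⟶ tp E n) ≫ a = a ≫ f) →
      IsNilpotent f) : ∃ n, asym (-d) E n = 0 := by
  have hdd : d * d = 1 := by rcases hd with rfl | rfl <;> norm_num
  obtain ⟨n, hn⟩ := Pool.Agent.K3h8.SF.map_asym_zero R hU hdd hE
  refine ⟨n, ?_⟩
  obtain ⟨Γ, hΓ, h1, h2⟩ := hGRP C G E ρ n
  let I : Submodule ℚ (End (tp E n)) :=
    { carrier := {f | R.H.map (f : tp E n ⟶ tp E n) = 0}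
      zero_mem' := R.H.map_zero _ _
      add_mem' := fun {a b} ha hb => by
        have h3 := R.H.map_add (f := (a : tp E n ⟶ tp E n)) (g := b)
        have h4 : R.H.map (a : tp E n ⟶ tp E n) = 0 := ha
        have h5 : R.H.map (b : tp E n ⟶ tp E n) = 0 := hb
        rw [h4, h5, add_zero] at h3
        exact h3
      smul_mem' := fun c a ha => by
        have hc := R_charZero R
        have h4 : R.H.map (a : tp E n ⟶ tp E n) = 0 := ha
        have h3 := R_smul R c (a : tp E n ⟶ tp E n)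
        rw [h4, smul_zero] at h3
        exact h3 }
  have hI : ∀ f : End (tp E n), f ∈ I ↔ R.H.map (f : tp E n ⟶ tp E n) = 0 := fun f => Iff.rfl
  obtain ⟨z, hz, hzz, hzc, hzx⟩ := hMAS (End (tp E n)) Γ I (fun a x hx => by
    rw [hI] at hx ⊢
    rw [End.mul_def, Functor.map_comp, hx, zero_comp]) (fun a x hx => by
    rw [hI] at hx ⊢
    rw [End.mul_def, Functor.map_comp, hx, comp_zero])
  have hznil : IsNilpotent z := hnil n z ((hI z).1 hz) (fun a ha => by
    obtain ⟨γ, hγ, hγa⟩ := h2 a ha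
    have h3 := hzc γ hγ
    rw [hγa, End.mul_def, End.mul_def] at h3
    exact h3.symm)
  have hz0 : z = 0 := by
    obtain ⟨k, hk⟩ := hznil
    have h3 : ∀ k : ℕ, z ^ (k + 1) = z := by
      intro k
      induction k with
      | zero => rw [zero_add, pow_one]
      | succ k ih => rw [pow_succ, ih, hzz]
    rw [← h3 k, pow_succ, hk, zero_mul]
  have hspan : en (asym (-d) E n) ∈ Submodule.span ℚ {a : End (tp E n) | ∃ γ ∈ Γ, (γ : End (tp E n)) = a} := by
    have h3 := asym_mem_adjoin (-d) E n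
    have h4 : Algebra.adjoin ℚ {g : End (tp E n) | IsSwap E n g} ≤
        Algebra.adjoin ℚ {a : End (tp E n) | ∃ γ ∈ Γ, (γ : End (tp E n)) = a} :=
      Algebra.adjoin_mono fun g hg => h1 g hg
    have h5 := h4 h3
    rw [← Subalgebra.mem_toSubmodule, Algebra.adjoin_eq_span] at h5
    refine Submodule.span_mono ?_ h5
    intro a ha
    refine Submonoid.closure_induction (motive := fun a _ => ∃ γ ∈ Γ, (γ : End (tp E n)) = a)
      (fun a ha => ha) ⟨1, Γ.one_mem, rfl⟩ ?_ ha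
    rintro a b - - ⟨γ, hγ, rfl⟩ ⟨γ', hγ', rfl⟩
    exact ⟨γ * γ', Γ.mul_mem hγ hγ', rfl⟩
  have h6 := hzx (en (asym (-d) E n)) ((hI _).2 hn) hspan
  rw [hz0, mul_zero] at h6
  exact h6.symm

include R in
/-- A direct summand of pure parity. -/
lemma part (hREG : S_REG.{v, w}) (hGRP : S_GRP.{v, u}) (hMAS : S_MAS.{v})
    (hNILN : S_NILN.{v, u, w}) (hRETR : S_RETR.{v, u}) [IsIdempotentComplete C] (hU : UnitQ C)
    {M F P : C} {ρ : G →* End M} {τ : G →* End F} {j : P ⟶ M ⊗ F} {q : M ⊗ F ⟶ P}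
    (hI : IsInv ρ τ j q) (hP : IsKimuraFinite P) {d : ℚ} (hd : d = 1 ∨ d = -1)
    (hF : R.par F = (d : K) • 𝟙 _) (x : R.H.obj F)
    (hx : LinearIndependent K fun g : G => (R.H.map ((τ g : End F) : F ⟶ F)).hom x)
    {E : C} (i : E ⟶ M) (r : M ⟶ E) (ρE : G →* End E) (hir : i ≫ r = 𝟙 E)
    (hEq : ∀ g, i ≫ ((ρ g : End M) : M ⟶ M) = ((ρE g : End E) : E ⟶ E) ≫ i ∧
      ((ρ g : End M) : M ⟶ M) ≫ r = r ≫ ((ρE g : End E) : E ⟶ E))
    {c : ℚ} (hc : c = 1 ∨ c = -1) (hE : R.par E = (c : K) • 𝟙 _) : ∃ n, asym (-c) E n = 0 := by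
  have hK := R_charZero R
  obtain ⟨T, jE, qE, a, b, hIE, hab⟩ := hRETR C G M F P E F ρ τ j q ρE i r τ (𝟙 F) (𝟙 F) hI hir hEq
    (Category.comp_id _) (fun g => ⟨by rw [Category.id_comp, Category.comp_id],
      by rw [Category.id_comp, Category.comp_id]⟩)
  have hcd : c * d = 1 ∨ c * d = -1 := by
    rcases hc with rfl | rfl <;> rcases hd with rfl | rfl <;> norm_num
  have hparT : R.par T = ((c * d : ℚ) : K) • 𝟙 _ := by
    have h1 := par_tensor_eq R hE hF
    have h2 : R.par T = R.H.map jE ≫ R.par (E ⊗ F) ≫ R.H.map qE := by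
      rw [← Category.assoc, R.par_natural, Category.assoc, ← Functor.map_comp, hIE.one,
        CategoryTheory.Functor.map_id, Category.comp_id]
    rw [h2, h1, Linear.smul_comp, Linear.comp_smul, Category.id_comp, ← Functor.map_comp, hIE.one,
      CategoryTheory.Functor.map_id, Rat.cast_mul]
  obtain ⟨k, hk⟩ := hP.summand R hU a b hab hcd hparT
  have hkap : (-(c * d) = 1 ∨ -(c * d) = -1) := by
    rcases hcd with h | h <;> rw [h] <;> norm_num
  have hT : ∀ n, HomNil R (tp T n) := fun n =>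
    Pool.Agent.K3h90.SF.t_NOPH C K R hU T _ hkap k hk n
  exact power_zero R hGRP hMAS hU ρE hc hE fun n f hf hfa =>
    hNILN C K R hU G E F T ρE τ jE qE hIE (isUnit_kap R hREG hU ρE τ hd hF x hx) n (hT n) f hf hfa

include R in
/-- The theorem from its parts. -/
theorem main (hREG : S_REG.{v, w}) (hGRP : S_GRP.{v, u}) (hMAS : S_MAS.{v})
    (hNILN : S_NILN.{v, u, w}) (hRETR : S_RETR.{v, u}) (hCPL : S_CPL.{v, u, w})
    (hSPLIT : S_SPLIT.{v, u, w}) [IsIdempotentComplete C] (hU : UnitQ C)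
    {M N P T F : C} {ρ : G →* End M} {τ : G →* End N} {j : P ⟶ M ⊗ N} {q : M ⊗ N ⟶ P}
    (hI : IsInv ρ τ j q) (a : P ⟶ T) (b : T ⟶ P) (hab : a ≫ b = 𝟙 P) (hT : IsKimuraFinite T)
    (τF : G →* End F) (i : F ⟶ N) (r : N ⟶ F) (hir : i ≫ r = 𝟙 F)
    (hEq : ∀ g, i ≫ ((τ g : End N) : N ⟶ N) = ((τF g : End F) : F ⟶ F) ≫ i ∧
      ((τ g : End N) : N ⟶ N) ≫ r = r ≫ ((τF g : End F) : F ⟶ F))
    {d : ℚ} (hd : d = 1 ∨ d = -1) (hF : R.par F = (d : K) • 𝟙 _) (x : R.H.obj F)
    (hx : LinearIndependent K fun g : G => (R.H.map ((τF g : End F) : F ⟶ F)).hom x) :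
    IsKimuraFinite M := by
  have hK := R_charZero R
  have hP : IsKimuraFinite P := hT.retract R hU a b hab
  obtain ⟨P₀, j₀, q₀, a₀, b₀, hI₀, hab₀⟩ := hRETR C G M N P M F ρ τ j q ρ (𝟙 M) (𝟙 M) τF i r hI
    (Category.comp_id _) (fun g => ⟨by rw [Category.id_comp, Category.comp_id],
      by rw [Category.id_comp, Category.comp_id]⟩) hir hEq
  have hP₀ : IsKimuraFinite P₀ := hP.retract R hU a₀ b₀ hab₀
  have hu := isUnit_kap R hREG hU ρ τF hd hF x hx
  have hC : R.CPlus M := hCPL C K R hU G M F P₀ ρ τF j₀ q₀ d hI₀ hd hF hu (hP₀.cplus R)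
  have hP1 : HomNil R (tp P₀ 1) :=
    (hP₀.homNil R hU).retract (λ_ P₀).hom (λ_ P₀).inv (by simp [tp])
  have hnil : ∀ f : End M, R.H.map (f : M ⟶ M) = 0 → (∀ g, f * ρ g = ρ g * f) →
      IsNilpotent f := by
    intro f hf hfg
    have h1 := hNILN C K R hU G M F P₀ ρ τF j₀ q₀ hI₀ hu 1 hP1
      (en (𝟙_ C ◁ (f : M ⟶ M)))
      (by
        change R.H.map (𝟙_ C ◁ (f : M ⟶ M)) = 0
        have h2 : 𝟙_ C ◁ (f : M ⟶ M) = (λ_ M).hom ≫ f ≫ (λ_ M).inv := by simp
        rw [h2, Functor.map_comp, Functor.map_comp, hf]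
        simp)
      (fun a ha => by
        have key : ∀ (n : ℕ) (a : tp M n ⟶ tp M n), IsAct ρ n a → ∀ h : n = 1,
            ∃ g, a = eqToHom (by rw [h]) ≫ (tp M 0 ◁ ((ρ g : End M) : M ⟶ M)) ≫
              eqToHom (by rw [h]) := by
          intro n a ha
          cases ha with
          | last n g =>
            intro h
            obtain rfl : n = 0 := by omega
            exact ⟨g, by simp⟩
          | lift n a ha =>
            intro h
            obtain rfl : n = 0 := by omega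
            cases ha
        obtain ⟨g, hg⟩ := key 1 a ha rfl
        simp only [eqToHom_refl, Category.id_comp, Category.comp_id] at hg
        rw [hg]
        change (𝟙_ C ◁ (f : M ⟶ M)) ≫ (𝟙_ C ◁ ((ρ g : End M) : M ⟶ M)) =
          (𝟙_ C ◁ ((ρ g : End M) : M ⟶ M)) ≫ (𝟙_ C ◁ (f : M ⟶ M))
        rw [← MonoidalCategory.whiskerLeft_comp, ← MonoidalCategory.whiskerLeft_comp]
        have h3 := hfg g
        rw [End.mul_def, End.mul_def] at h3
        rw [h3])
    obtain ⟨k, hk⟩ := h1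
    refine ⟨k, ?_⟩
    have h4 : ∀ k : ℕ, (en (𝟙_ C ◁ (f : M ⟶ M)) ^ k : End (tp M 1)) =
        (𝟙_ C ◁ ((f ^ k : End M) : M ⟶ M) : tp M 1 ⟶ tp M 1) := by
      intro k
      induction k with
      | zero =>
        rw [pow_zero, pow_zero]
        exact (MonoidalCategory.whiskerLeft_id _ _).symm
      | succ k ih =>
        rw [pow_succ, ih, pow_succ, End.mul_def, End.mul_def]
        exact (MonoidalCategory.whiskerLeft_comp _ _ _).symm
    rw [h4] at hk
    have h5 : ((f ^ k : End M) : M ⟶ M) = (λ_ M).inv ≫ (𝟙_ C ◁ ((f ^ k : End M) : M ⟶ M)) ≫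
        (λ_ M).hom := by simp
    rw [h5]
    have h6 : (𝟙_ C ◁ ((f ^ k : End M) : M ⟶ M)) = 0 := hk
    rw [h6]
    simp
  obtain ⟨E, O, iE, rE, iO, rO, ρE, ρO, k1, k2, k3, hE, hO, eE, eO⟩ :=
    hSPLIT C K R G M ρ hC hnil
  obtain ⟨n, hn⟩ := part R hREG hGRP hMAS hNILN hRETR hU hI₀ hP₀ hd hF x hx iE rE ρE k1 eE
    (Or.inl rfl) (by rw [hE]; norm_num)
  obtain ⟨m, hm⟩ := part R hREG hGRP hMAS hNILN hRETR hU hI₀ hP₀ hd hF x hx iO rO ρO k2 eO
    (Or.inr rfl) (by rw [hO]; norm_num)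
  rw [neg_neg] at hm
  exact (isKimuraFinite_iff M).2 ⟨E, O, iE, rE, iO, rO, k1, k2, k3, ⟨n, hn⟩, m, hm⟩

end Pool.Agent.K3h63.IQ
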