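import Pool.Agent.K3h63.IQ.Stm

/-!
# Kimura finiteness of `M` from Kimura finiteness of `(M ⊗ M^∨)^G`: statements of the parts
-/

set_option autoImplicit false
set_option linter.unusedSectionVars false

open CategoryTheory Limits MonoidalCategory
open Pool.Agent.Y112.SR Pool.Agent.Y112.KD Pool.Agent.Y112.SC Pool.Agent.R905

namespace Pool.Agent.K3h63.IQ

universe v u w

/-- EIG: `∑ χ(g⁻¹) g` is annihilated by a polynomial with positive rational roots. -/
def S_EIG : Prop := ∀ (K V : Type w) [Field K] [CharZero K] [AddCommGroup V] [Module K V]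
  [Module.Finite K V] (G : Type) [Group G] [Fintype G] (π : G →* Module.End K V),
  ∃ s : Multiset ℚ, (∀ r ∈ s, 0 < r) ∧
    Polynomial.aeval (∑ g : G, LinearMap.trace K V (π g⁻¹) • π g)
      ((s.map fun r : ℚ => (Polynomial.X - Polynomial.C (r : K) : Polynomial K)).prod) = 0

/-- SGN: the sign of `c * p` is a rational polynomial in `c * p`. -/
def S_SGN : Prop := ∀ (K V : Type w) [Field K] [CharZero K] [AddCommGroup V] [Module K V]
  (c p : Module.End K V) (s : Multiset ℚ), p * p = 1 → c * p = p * c → (∀ r ∈ s, 0 < r) →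
  Polynomial.aeval c
    ((s.map fun r : ℚ => (Polynomial.X - Polynomial.C (r : K) : Polynomial K)).prod) = 0 →
  ∃ q : Polynomial ℚ, Polynomial.aeval (c * p) (q.map (algebraMap ℚ K)) = p

section

variable {C : Type u} [Category.{v} C] [MonoidalCategory C] [RightRigidCategory C]

/-- The action on the dual. -/
def dualAct {G : Type} [Group G] {M : C} (ρ : G →* End M) : G →* End (Mᘁ : C) where
  toFun g := ((((ρ g⁻¹ : End M) : M ⟶ M)ᘁ : Mᘁ ⟶ Mᘁ) : End (Mᘁ : C))
  map_one' := by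
    rw [inv_one, map_one]
    exact rightAdjointMate_id
  map_mul' g h := by
    rw [mul_inv_rev, map_mul, End.mul_def, End.mul_def]
    exact comp_rightAdjointMate

lemma dualAct_apply {G : Type} [Group G] {M : C} (ρ : G →* End M) (g : G) :
    ((dualAct ρ g : End (Mᘁ : C)) : Mᘁ ⟶ Mᘁ) = ((ρ g⁻¹ : End M) : M ⟶ M)ᘁ := rfl

end

/-- DUALX: traces and parity of duals. -/
def S_DUALX : Prop := ∀ (C : Type u) [Category.{v} C] [Preadditive C] [Linear ℚ C]
  [MonoidalCategory C] [MonoidalPreadditive C] [MonoidalLinear ℚ C] [SymmetricCategory C]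
  [RightRigidCategory C] (K : Type w) [Field K] (R : SuperRealisation C K) (M : C),
  (∀ f : M ⟶ M, LinearMap.trace K _ (R.H.map (fᘁ)).hom = LinearMap.trace K _ (R.H.map f).hom) ∧
  (∀ d : K, R.par M = d • 𝟙 _ → R.par (Mᘁ) = d • 𝟙 _) ∧
  (R.CPlus M → R.CPlus (Mᘁ))

/-- CPL2: the sign conjecture for `M`. -/
def S_CPL2 : Prop := ∀ (C : Type u) [Category.{v} C] [Preadditive C] [Linear ℚ C]
  [MonoidalCategory C] [MonoidalPreadditive C] [MonoidalLinear ℚ C] [SymmetricCategory C]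
  [RightRigidCategory C] (K : Type w) [Field K] (R : SuperRealisation C K)
  (G : Type) [Group G] [Fintype G] (M P : C) (ρ : G →* End M)
  (j : P ⟶ M ⊗ Mᘁ) (q : M ⊗ Mᘁ ⟶ P), IsInv ρ (dualAct ρ) j q → R.CPlus P → R.CPlus M

/-- PHAN: no homologically trivial elements in the image of the group algebra. -/
def S_PHAN : Prop := ∀ (C : Type u) [Category.{v} C] [Preadditive C] [Linear ℚ C]
  [MonoidalCategory C] [MonoidalPreadditive C] [MonoidalLinear ℚ C] [SymmetricCategory C]
  [RightRigidCategory C] (K : Type w) [Field K] (R : SuperRealisation C K)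
  (G : Type) [Group G] [Fintype G] (M P : C) (ρ : G →* End M)
  (j : P ⟶ M ⊗ Mᘁ) (q : M ⊗ Mᘁ ⟶ P), IsInv ρ (dualAct ρ) j q → HomNil R P →
  ∀ x ∈ Submodule.span ℚ (Set.range fun g : G => (ρ g : End M)),
    R.H.map (x : M ⟶ M) = 0 → x = 0

/-- UNIT2: the unit. -/
def S_UNIT2 : Prop := ∀ (C : Type u) [Category.{v} C] [Preadditive C] [Linear ℚ C]
  [MonoidalCategory C] [MonoidalPreadditive C] [MonoidalLinear ℚ C] [SymmetricCategory C]
  (K : Type w) [Field K] (R : SuperRealisation C K)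
  (G : Type) [Group G] [Fintype G] (M : C) (ρ : G →* End M) (ψ : G → ℚ),
  (∀ g, (ψ g : K) = LinearMap.trace K _ (R.H.map ((ρ g⁻¹ : End M) : M ⟶ M)).hom) →
  (∀ x ∈ Submodule.span ℚ (Set.range fun g : G => (ρ g : End M)),
    R.H.map (x : M ⟶ M) = 0 → x = 0) →
  IsUnit (∑ g, ψ g • ρ g : End M)

/-- NIL1: nilpotence on `M`. -/
def S_NIL1 : Prop := ∀ (C : Type u) [Category.{v} C] [Preadditive C] [Linear ℚ C]
  [MonoidalCategory C] [MonoidalPreadditive C] [MonoidalLinear ℚ C] [SymmetricCategory C]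
  [RightRigidCategory C] (K : Type w) [Field K] (R : SuperRealisation C K) (hU : UnitQ C)
  (G : Type) [Group G] [Fintype G] (M N P : C) (ρ : G →* End M) (τ : G →* End N)
  (j : P ⟶ M ⊗ N) (q : M ⊗ N ⟶ P), IsInv ρ τ j q → ∀ y : N ⟶ N,
  IsUnit (∑ g, trq hU N (((τ g : End N) : N ⟶ N) ≫ y) • ρ g : End M) → HomNil R P →
  ∀ f : End M, R.H.map (f : M ⟶ M) = 0 → (∀ g, f * ρ g = ρ g * f) → IsNilpotent f

end Pool.Agent.K3h63.IQ
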