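import Pool.Agent.K3h63.IQ.Main
import Pool.Agent.K3h63.IQ.Stm2

/-!
# Kimura finiteness of `M` from Kimura finiteness of `(M ⊗ M^∨)^G`: the proof from the parts
-/

set_option autoImplicit false

open CategoryTheory Limits MonoidalCategory
open Pool.Agent.Y112.SR Pool.Agent.Y112.KD Pool.Agent.Y112.SC Pool.Agent.R905 Pool.Agent.K3h8.KS

namespace Pool.Agent.K3h63.IQ

universe v u w

variable {C : Type u} [Category.{v} C] [Preadditive C] [Linear ℚ C] [MonoidalCategory C]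
  [MonoidalPreadditive C] [MonoidalLinear ℚ C] [SymmetricCategory C]
  [RightRigidCategory C] {K : Type w} [Field K] (R : SuperRealisation C K)
  {G : Type} [Group G] [Fintype G]

include R in
lemma isUnit_dual (hUNIT : S_UNIT2.{v, u, w}) (hPHAN : S_PHAN.{v, u, w})
    (hDUAL : S_DUALX.{v, u, w}) (hU : UnitQ C) {E P : C} {ρ : G →* End E} {j : P ⟶ E ⊗ Eᘁ}
    {q : E ⊗ Eᘁ ⟶ P} (hI : IsInv ρ (dualAct ρ) j q) (hP : HomNil R P) (y : Eᘁ ⟶ Eᘁ)
    (hy : R.H.map y = R.par (Eᘁ)) :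
    IsUnit (∑ g, trq hU (Eᘁ) (((dualAct ρ g : End (Eᘁ : C)) : Eᘁ ⟶ Eᘁ) ≫ y) • ρ g : End E) := by
  refine hUNIT C K R G E ρ _ (fun g => ?_) (hPHAN C K R G E P ρ j q hI hP)
  rw [real_tr R hU, Functor.map_comp, Category.assoc, hy, R.par_sq, Category.comp_id,
    dualAct_apply]
  exact (hDUAL C K R E).1 _

include R in
/-- A direct summand of pure parity. -/
lemma part2 (hUNIT : S_UNIT2.{v, u, w}) (hPHAN : S_PHAN.{v, u, w}) (hDUAL : S_DUALX.{v, u, w})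
    (hGRP : S_GRP.{v, u}) (hMAS : S_MAS.{v})
    (hNILN : S_NILN.{v, u, w}) (hRETR : S_RETR.{v, u}) [IsIdempotentComplete C] (hU : UnitQ C)
    {M P : C} {ρ : G →* End M} {j : P ⟶ M ⊗ Mᘁ} {q : M ⊗ Mᘁ ⟶ P}
    (hI : IsInv ρ (dualAct ρ) j q) (hP : IsKimuraFinite P)
    {E : C} (i : E ⟶ M) (r : M ⟶ E) (ρE : G →* End E) (hir : i ≫ r = 𝟙 E)
    (hEq : ∀ g, i ≫ ((ρ g : End M) : M ⟶ M) = ((ρE g : End E) : E ⟶ E) ≫ i ∧
      ((ρ g : End M) : M ⟶ M) ≫ r = r ≫ ((ρE g : End E) : E ⟶ E))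
    {c : ℚ} (hc : c = 1 ∨ c = -1) (hE : R.par E = (c : K) • 𝟙 _) : ∃ n, asym (-c) E n = 0 := by
  have hK := R_charZero R
  obtain ⟨T, jE, qE, a, b, hIE, hab⟩ := hRETR C G M (Mᘁ) P E (Eᘁ) ρ (dualAct ρ) j q ρE i r
    (dualAct ρE) (rᘁ) (iᘁ) hI hir hEq
    (by rw [← comp_rightAdjointMate, hir, rightAdjointMate_id]) (fun g => by
      rw [dualAct_apply, dualAct_apply]
      constructor
      · rw [← comp_rightAdjointMate, ← comp_rightAdjointMate, (hEq g⁻¹).2]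
      · rw [← comp_rightAdjointMate, ← comp_rightAdjointMate, (hEq g⁻¹).1])
  have hcc : c * c = 1 := by rcases hc with rfl | rfl <;> norm_num
  have hE' : R.par (Eᘁ) = (c : K) • 𝟙 _ := (hDUAL C K R E).2.1 _ hE
  have hparT : R.par T = ((1 : ℚ) : K) • 𝟙 _ := by
    have h1 := par_tensor_eq R hE hE'
    have h2 : R.par T = R.H.map jE ≫ R.par (E ⊗ Eᘁ) ≫ R.H.map qE := by
      rw [← Category.assoc, R.par_natural, Category.assoc, ← Functor.map_comp, hIE.one,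
        CategoryTheory.Functor.map_id, Category.comp_id]
    rw [h2, h1, Linear.smul_comp, Linear.comp_smul, Category.id_comp, ← Functor.map_comp, hIE.one,
      CategoryTheory.Functor.map_id, ← Rat.cast_mul, hcc]
  obtain ⟨k, hk⟩ := hP.summand R hU a b hab (Or.inl rfl) hparT
  have hT : ∀ n, HomNil R (tp T n) := fun n =>
    Pool.Agent.K3h90.SF.t_NOPH C K R hU T _ (Or.inr rfl) k hk n
  have hT1 : HomNil R T := (hP.homNil R hU).retract a b hab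
  have hu1 := isUnit_dual R hUNIT hPHAN hDUAL hU hIE hT1 (c • 𝟙 (Eᘁ))
    (by rw [R_smul, CategoryTheory.Functor.map_id, hE'])
  have hu : IsUnit (∑ g, trq hU (Eᘁ) (dualAct ρE g) • ρE g : End E) := by
    have h3 : (∑ g, trq hU (Eᘁ) (dualAct ρE g) • ρE g : End E) = algebraMap ℚ (End E) c *
        ∑ g, trq hU (Eᘁ) (((dualAct ρE g : End (Eᘁ : C)) : Eᘁ ⟶ Eᘁ) ≫ (c • 𝟙 (Eᘁ))) • ρE g := by
      rw [Finset.mul_sum]
      refine Finset.sum_congr rfl fun g _ => ?_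
      rw [← Algebra.smul_def, smul_smul]
      congr 1
      have h4 : (((dualAct ρE g : End (Eᘁ : C)) : Eᘁ ⟶ Eᘁ) ≫ (c • 𝟙 (Eᘁ))) =
          (c • (dualAct ρE g : End (Eᘁ : C)) : End (Eᘁ : C)) := by
        rw [Linear.comp_smul, Category.comp_id]
      rw [h4, map_smul, smul_eq_mul, ← mul_assoc, hcc, one_mul]
    rw [h3]
    refine IsUnit.mul ?_ hu1
    exact (isUnit_iff_ne_zero.2 (by rintro rfl; norm_num at hcc)).map (algebraMap ℚ (End E))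
  exact power_zero R hGRP hMAS hU ρE hc hE fun n f hf hfa =>
    hNILN C K R hU G E (Eᘁ) T ρE (dualAct ρE) jE qE hIE hu n (hT n) f hf hfa

include R in
/-- The theorem from its parts. -/
theorem main2 (hUNIT : S_UNIT2.{v, u, w}) (hPHAN : S_PHAN.{v, u, w}) (hDUAL : S_DUALX.{v, u, w})
    (hCPL : S_CPL2.{v, u, w}) (hNIL : S_NIL1.{v, u, w})
    (hGRP : S_GRP.{v, u}) (hMAS : S_MAS.{v})
    (hNILN : S_NILN.{v, u, w}) (hRETR : S_RETR.{v, u})
    (hSPLIT : S_SPLIT.{v, u, w}) [IsIdempotentComplete C] (hU : UnitQ C)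
    {M P T : C} {ρ : G →* End M} {j : P ⟶ M ⊗ Mᘁ} {q : M ⊗ Mᘁ ⟶ P}
    (hI : IsInv ρ (dualAct ρ) j q) (a : P ⟶ T) (b : T ⟶ P) (hab : a ≫ b = 𝟙 P)
    (hT : IsKimuraFinite T) : IsKimuraFinite M := by
  have hK := R_charZero R
  have hP : IsKimuraFinite P := hT.retract R hU a b hab
  have hC : R.CPlus M := hCPL C K R G M P ρ j q hI (hP.cplus R)
  obtain ⟨y, hy⟩ := (cplus_iff R (Mᘁ)).1 ((hDUAL C K R M).2.2 hC)
  have hu := isUnit_dual R hUNIT hPHAN hDUAL hU hI (hP.homNil R hU) y hy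
  have hnil := hNIL C K R hU G M (Mᘁ) P ρ (dualAct ρ) j q hI y hu (hP.homNil R hU)
  obtain ⟨E, O, iE, rE, iO, rO, ρE, ρO, k1, k2, k3, hE, hO, eE, eO⟩ :=
    hSPLIT C K R G M ρ hC hnil
  obtain ⟨n, hn⟩ := part2 R hUNIT hPHAN hDUAL hGRP hMAS hNILN hRETR hU hI hP iE rE ρE k1 eE
    (Or.inl rfl) (by rw [hE]; norm_num)
  obtain ⟨m, hm⟩ := part2 R hUNIT hPHAN hDUAL hGRP hMAS hNILN hRETR hU hI hP iO rO ρO k2 eO
    (Or.inr rfl) (by rw [hO]; norm_num)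
  rw [neg_neg] at hm
  exact (isKimuraFinite_iff M).2 ⟨E, O, iE, rE, iO, rO, k1, k2, k3, ⟨n, hn⟩, m, hm⟩

end Pool.Agent.K3h63.IQ
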