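import Pool.Agent.K3h8.KS.Main
import Pool.Agent.K3h63.PD.Tens

/-!
# Kimura finiteness of `M` from Kimura finiteness of `(M ⊗ N)^G`: statements of the parts

`G` is a finite group acting on the objects `M` and `N` by `ρ : G →* End M`, `τ : G →* End N` (in
`End M` the product `f * g` is `g ≫ f`).
-/

set_option autoImplicit false
set_option linter.unusedSectionVars false

open CategoryTheory Limits MonoidalCategory
open Pool.Agent.Y112.SR Pool.Agent.Y112.KD Pool.Agent.Y112.SC Pool.Agent.R905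

namespace Pool.Agent.K3h63.IQ

universe v u w

/-! ### Parts that use only Mathlib -/

/-- REG: if the representation `π` contains a free orbit, the sum `∑ χ(g) g` over its character `χ`
(assumed rational) is a unit. -/
def S_REG : Prop := ∀ (K V : Type w) [Field K] [CharZero K] [AddCommGroup V] [Module K V]
  [Module.Finite K V] (G : Type) [Group G] [Fintype G] (π : G →* Module.End K V) (x : V),
  LinearIndependent K (fun g : G => π g x) → ∀ ψ : G → ℚ,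
  (∀ g, (ψ g : K) = LinearMap.trace K V (π g)) →
  ∀ (A : Type v) [Ring A] [Algebra ℚ A] (ρ : G →* A), IsUnit (∑ g : G, ψ g • ρ g)

/-- MAS: the part of a two-sided ideal in the span of a finite group is generated by an idempotent
which commutes with the group. -/
def S_MAS : Prop := ∀ (A : Type v) [Ring A] [Algebra ℚ A] (Γ : Subgroup Aˣ) [Finite Γ]
  (I : Submodule ℚ A), (∀ a x : A, x ∈ I → a * x ∈ I) → (∀ a x : A, x ∈ I → x * a ∈ I) →
  ∃ z ∈ I, z * z = z ∧ (∀ γ ∈ Γ, z * (γ : A) = (γ : A) * z) ∧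
    ∀ x ∈ I, x ∈ Submodule.span ℚ {a : A | ∃ γ ∈ Γ, (γ : A) = a} → x * z = x

/-! ### The set up -/

section

variable {C : Type u} [Category.{v} C] [MonoidalCategory C]

/-- The actions of the elements of `G` on one factor of the tensor power `X ^ n`. -/
inductive IsAct {G : Type} [Group G] {X : C} (ρ : G →* End X) : ∀ n : ℕ, (tp X n ⟶ tp X n) → Prop
  | last (n : ℕ) (g : G) : IsAct ρ (n + 1) (tp X n ◁ (ρ g : X ⟶ X))
  | lift (n : ℕ) (a : tp X n ⟶ tp X n) : IsAct ρ n a → IsAct ρ (n + 1) (a ▷ X)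

end

section

variable {C : Type u} [Category.{v} C] [Preadditive C] [Linear ℚ C] [MonoidalCategory C]

/-- `P` is the direct summand `(M ⊗ N)^G` of `M ⊗ N`, with inclusion `j` and projection `q`: the
composite `q ≫ j` is the projector `(1 / |G|) ∑ g ⊗ g`. -/
structure IsInv {G : Type} [Group G] [Fintype G] {M N P : C} (ρ : G →* End M) (τ : G →* End N)
    (j : P ⟶ M ⊗ N) (q : M ⊗ N ⟶ P) : Prop where
  one : j ≫ q = 𝟙 P
  proj : q ≫ j = (Fintype.card G : ℚ)⁻¹ •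
    ∑ g : G, (((ρ g : End M) : M ⟶ M) ⊗ₘ ((τ g : End N) : N ⟶ N))

/-- Transfer of an endomorphism of `Z ⊗ M` to `Z ⊗ P`. -/
def tw {M N P : C} (j : P ⟶ M ⊗ N) (q : M ⊗ N ⟶ P) {Z : C} (f : Z ⊗ M ⟶ Z ⊗ M) :
    Z ⊗ P ⟶ Z ⊗ P :=
  (Z ◁ j) ≫ (α_ Z M N).inv ≫ (f ▷ N) ≫ (α_ Z M N).hom ≫ (Z ◁ q)

end

/-! ### Parts in a tensor category -/

/-- ONE: the transfer of one factor. -/
def S_ONE : Prop := ∀ (C : Type u) [Category.{v} C] [Preadditive C] [Linear ℚ C]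
  [MonoidalCategory C] [MonoidalPreadditive C] [MonoidalLinear ℚ C] [SymmetricCategory C]
  [RightRigidCategory C] (K : Type w) [Field K] (R : SuperRealisation C K) (hU : UnitQ C)
  (G : Type) [Group G] [Fintype G] (M N P : C) (ρ : G →* End M) (τ : G →* End N)
  (j : P ⟶ M ⊗ N) (q : M ⊗ N ⟶ P), IsInv ρ τ j q → ∀ Z : C,
  (tw j q (𝟙 (Z ⊗ M)) = 𝟙 _) ∧
  (∀ f : Z ⊗ M ⟶ Z ⊗ M, R.H.map f = 0 → R.H.map (tw j q f) = 0) ∧
  (∀ (a : Z ⟶ Z) (f : Z ⊗ M ⟶ Z ⊗ M), f ≫ a ▷ M = a ▷ M ≫ f →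
    tw j q f ≫ a ▷ P = a ▷ P ≫ tw j q f) ∧
  ∀ f : Z ⊗ M ⟶ Z ⊗ M, (∀ g, f ≫ Z ◁ ((ρ g : End M) : M ⟶ M) = Z ◁ ((ρ g : End M) : M ⟶ M) ≫ f) →
    (∀ f' : Z ⊗ M ⟶ Z ⊗ M, tw j q (f' ≫ f) = tw j q f' ≫ tw j q f) ∧
    (tw j q f = 0 → f ≫ Z ◁ ((∑ g, trq hU N (τ g) • ρ g : End M) : M ⟶ M) = 0)

/-- NILN: nilpotence on the tensor powers of `M`. -/
def S_NILN : Prop := ∀ (C : Type u) [Category.{v} C] [Preadditive C] [Linear ℚ C]
  [MonoidalCategory C] [MonoidalPreadditive C] [MonoidalLinear ℚ C] [SymmetricCategory C]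
  [RightRigidCategory C] (K : Type w) [Field K] (R : SuperRealisation C K) (hU : UnitQ C)
  (G : Type) [Group G] [Fintype G] (M N P : C) (ρ : G →* End M) (τ : G →* End N)
  (j : P ⟶ M ⊗ N) (q : M ⊗ N ⟶ P), IsInv ρ τ j q →
  IsUnit (∑ g, trq hU N (τ g) • ρ g : End M) →
  ∀ n : ℕ, HomNil R (tp P n) → ∀ f : End (tp M n), R.H.map (f : tp M n ⟶ tp M n) = 0 →
    (∀ a : tp M n ⟶ tp M n, IsAct ρ n a → (f : tp M n ⟶ tp M n) ≫ a = a ≫ f) → IsNilpotent f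

/-- CPL: the sign conjecture for `M`. -/
def S_CPL : Prop := ∀ (C : Type u) [Category.{v} C] [Preadditive C] [Linear ℚ C]
  [MonoidalCategory C] [MonoidalPreadditive C] [MonoidalLinear ℚ C] [SymmetricCategory C]
  [RightRigidCategory C] (K : Type w) [Field K] (R : SuperRealisation C K) (hU : UnitQ C)
  (G : Type) [Group G] [Fintype G] (M N P : C) (ρ : G →* End M) (τ : G →* End N)
  (j : P ⟶ M ⊗ N) (q : M ⊗ N ⟶ P) (d : ℚ), IsInv ρ τ j q → (d = 1 ∨ d = -1) →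
  R.par N = (d : K) • 𝟙 _ → IsUnit (∑ g, trq hU N (τ g) • ρ g : End M) →
  R.CPlus P → R.CPlus M

/-- GRP: exchanges of neighbouring factors and actions on one factor lie in a finite group. -/
def S_GRP : Prop := ∀ (C : Type u) [Category.{v} C] [Preadditive C] [Linear ℚ C]
  [MonoidalCategory C] [MonoidalPreadditive C] [MonoidalLinear ℚ C] [SymmetricCategory C]
  (G : Type) [Group G] [Fintype G] (M : C) (ρ : G →* End M) (n : ℕ),
  ∃ Γ : Subgroup (End (tp M n))ˣ, Finite Γ ∧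
    (∀ s : tp M n ⟶ tp M n, IsSwap M n s → ∃ γ ∈ Γ, (γ : End (tp M n)) = s) ∧
    ∀ a : tp M n ⟶ tp M n, IsAct ρ n a → ∃ γ ∈ Γ, (γ : End (tp M n)) = a

/-- SPLIT: the even and the odd part of `M`, with the action of `G`. -/
def S_SPLIT : Prop := ∀ (C : Type u) [Category.{v} C] [Preadditive C] [Linear ℚ C]
  [MonoidalCategory C] [MonoidalPreadditive C] [MonoidalLinear ℚ C] [SymmetricCategory C]
  [IsIdempotentComplete C] (K : Type w) [Field K] (R : SuperRealisation C K)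
  (G : Type) [Group G] [Fintype G] (M : C) (ρ : G →* End M), R.CPlus M →
  (∀ f : End M, R.H.map (f : M ⟶ M) = 0 → (∀ g, f * ρ g = ρ g * f) → IsNilpotent f) →
  ∃ (E O : C) (i : E ⟶ M) (r : M ⟶ E) (i' : O ⟶ M) (r' : M ⟶ O) (ρE : G →* End E)
    (ρO : G →* End O), i ≫ r = 𝟙 E ∧ i' ≫ r' = 𝟙 O ∧ r ≫ i + r' ≫ i' = 𝟙 M ∧
    R.par E = (1 : K) • 𝟙 _ ∧ R.par O = (-1 : K) • 𝟙 _ ∧
    (∀ g, i ≫ ((ρ g : End M) : M ⟶ M) = ((ρE g : End E) : E ⟶ E) ≫ i ∧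
      ((ρ g : End M) : M ⟶ M) ≫ r = r ≫ ((ρE g : End E) : E ⟶ E)) ∧
    ∀ g, i' ≫ ((ρ g : End M) : M ⟶ M) = ((ρO g : End O) : O ⟶ O) ≫ i' ∧
      ((ρ g : End M) : M ⟶ M) ≫ r' = r' ≫ ((ρO g : End O) : O ⟶ O)

/-- RETR: invariants of equivariant direct summands. -/
def S_RETR : Prop := ∀ (C : Type u) [Category.{v} C] [Preadditive C] [Linear ℚ C]
  [MonoidalCategory C] [MonoidalPreadditive C] [MonoidalLinear ℚ C] [SymmetricCategory C]
  [IsIdempotentComplete C]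
  (G : Type) [Group G] [Fintype G] (M N P E F : C) (ρ : G →* End M) (τ : G →* End N)
  (j : P ⟶ M ⊗ N) (q : M ⊗ N ⟶ P) (ρE : G →* End E) (i : E ⟶ M) (r : M ⟶ E)
  (τF : G →* End F) (i' : F ⟶ N) (r' : N ⟶ F), IsInv ρ τ j q →
  i ≫ r = 𝟙 E →
  (∀ g, i ≫ ((ρ g : End M) : M ⟶ M) = ((ρE g : End E) : E ⟶ E) ≫ i ∧
      ((ρ g : End M) : M ⟶ M) ≫ r = r ≫ ((ρE g : End E) : E ⟶ E)) →
  i' ≫ r' = 𝟙 F →
  (∀ g, i' ≫ ((τ g : End N) : N ⟶ N) = ((τF g : End F) : F ⟶ F) ≫ i' ∧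
      ((τ g : End N) : N ⟶ N) ≫ r' = r' ≫ ((τF g : End F) : F ⟶ F)) →
  ∃ (T : C) (jE : T ⟶ E ⊗ F) (qE : E ⊗ F ⟶ T) (a : T ⟶ P) (b : P ⟶ T),
    IsInv ρE τF jE qE ∧ a ≫ b = 𝟙 T

end Pool.Agent.K3h63.IQ
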